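import Pool.Agent.Helper97.Scat.Sharp4

/-!
# Strong-coupling limit of the scattering matrix of a leaky curve

The definitions `IsLeakyCurve`, `curvature`, `momentum`, `profile`, `leftWave`, `rightWave`,
`IsScatteringSolution`, `IsLeakySMatrix`, `IsComparisonSolution`, `IsComparisonSMatrix` are in
`Pool.Agent.Helper97.Scat.Defs`.
-/

namespace Pool.Agent.Results.MP_862eda_mp.StrongCouplingLimit

open Pool.Agent.Helper97.Scat

/-- Part 1. For every admissible curve and every `k ≠ 0`: the comparison operator has a scattering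
matrix at energy `k²`; if the two leads do not point in the same direction, then for large `α` the
leaky curve has a scattering matrix at energy `k² - α²/4`, and the two matrices differ by at most
`C / α²`; if the leads point in the same direction, no generalized eigenfunction is asymptotic to
guided waves, unless all amplitudes vanish.

Part 2. The exponent is optimal: for every `k ≠ 0` there is an admissible curve for which the
transmission amplitudes differ by at least `b / α²`, `b > 0`, for all large `α`. -/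
theorem result :
    (∀ (γ : ℝ → ℂ) (u v : ℂ), IsLeakyCurve γ u v → ∀ k : ℝ, k ≠ 0 →
      ∃ S : Matrix (Fin 2) (Fin 2) ℂ, IsComparisonSMatrix (curvature γ) (k ^ 2) S ∧
        (u ≠ v → ∃ C α₀ : ℝ, 0 < α₀ ∧ ∀ α : ℝ, α₀ ≤ α →
          ∃ Sα : Matrix (Fin 2) (Fin 2) ℂ, IsLeakySMatrix γ α (k ^ 2 - α ^ 2 / 4) Sα ∧
            ∀ i j, ‖Sα i j - S i j‖ ≤ C / α ^ 2) ∧
        (u = v → ∀ α : ℝ, 2 * |k| < α → ∀ (ψ : ℂ → ℂ) (A B : Fin 2 → ℂ),
          IsScatteringSolution γ α (k ^ 2 - α ^ 2 / 4) ψ A B → A = 0 ∧ B = 0)) ∧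
    ∀ k : ℝ, k ≠ 0 → ∃ (γ : ℝ → ℂ) (u v : ℂ), IsLeakyCurve γ u v ∧ u ≠ v ∧
      ∃ S : Matrix (Fin 2) (Fin 2) ℂ, IsComparisonSMatrix (curvature γ) (k ^ 2) S ∧
        ∃ b α₀ : ℝ, 0 < b ∧ 0 < α₀ ∧ ∀ α : ℝ, α₀ ≤ α →
          ∃ Sα : Matrix (Fin 2) (Fin 2) ℂ, IsLeakySMatrix γ α (k ^ 2 - α ^ 2 / 4) Sα ∧
            b / α ^ 2 ≤ ‖Sα 1 0 - S 1 0‖ :=
  ⟨fun _ _ _ h _ hk => main1 h hk, fun _ hk => main2 hk⟩

end Pool.Agent.Results.MP_862eda_mp.StrongCouplingLimit
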